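import Mathlib

set_option autoImplicit false

namespace Pool.Agent.MP_d3ce6f_co

/-- The valence of a point `x` with respect to a family `𝒯` of subsets of the plane: the
number of tiles containing `x`. -/
noncomputable def valence (𝒯 : Set (Set (ℝ × ℝ))) (x : ℝ × ℝ) : ℕ∞ :=
  {T : Set (ℝ × ℝ) | T ∈ 𝒯 ∧ x ∈ T}.encard

/-- A tiling of the plane by closed topological disks, any two of which have empty or
connected intersection, without singular points. -/
structure IsTiling (𝒯 : Set (Set (ℝ × ℝ))) : Prop where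
  /-- the family of tiles is countable -/
  countable : 𝒯.Countable
  /-- every tile is closed -/
  isClosed : ∀ T ∈ 𝒯, IsClosed T
  /-- the tiles cover the plane -/
  covers : ⋃₀ 𝒯 = Set.univ
  /-- distinct tiles have disjoint interiors -/
  interiors : ∀ S ∈ 𝒯, ∀ T ∈ 𝒯, S ≠ T → Disjoint (interior S) (interior T)
  /-- every tile is a closed topological disk -/
  disk : ∀ T ∈ 𝒯, Nonempty (T ≃ₜ Metric.closedBall (0 : EuclideanSpace ℝ (Fin 2)) 1)
  /-- any two tiles have empty or connected intersection -/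
  inter : ∀ S ∈ 𝒯, ∀ T ∈ 𝒯, S ≠ T → S ∩ T = ∅ ∨ IsConnected (S ∩ T)
  /-- there are no singular points -/
  nonsingular : ∀ x : ℝ × ℝ, ∃ U ∈ nhds x, {T : Set (ℝ × ℝ) | T ∈ 𝒯 ∧ (T ∩ U).Nonempty}.Finite

/-- The tile `T` has exactly `n` vertices and, read in cyclic order around the boundary of `T`
(from some starting point and in some direction), they have the valences
`j 0, j 1, …, j (n - 1)`.  The boundary is traversed by the closed curve `γ`. -/
def HasValenceType (𝒯 : Set (Set (ℝ × ℝ))) (T : Set (ℝ × ℝ)) {n : ℕ} (j : Fin n → ℕ) : Prop :=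
  ∃ (γ : ℝ → ℝ × ℝ) (t : Fin n → ℝ),
    ContinuousOn γ (Set.Icc 0 1) ∧ Set.InjOn γ (Set.Ico 0 1) ∧ γ 0 = γ 1 ∧
    γ '' Set.Icc 0 1 = frontier T ∧
    StrictMono t ∧ (∀ i, t i ∈ Set.Ico (0 : ℝ) 1) ∧
    {x : ℝ × ℝ | x ∈ T ∧ 3 ≤ valence 𝒯 x} = Set.range (fun i => γ (t i)) ∧
    ∀ i, valence 𝒯 (γ (t i)) = (j i : ℕ∞)

/-- A homogeneous tiling of type `[3.4.3.4.4]`. -/
def IsHomogeneous34344 (𝒯 : Set (Set (ℝ × ℝ))) : Prop :=
  IsTiling 𝒯 ∧ ∀ T ∈ 𝒯, HasValenceType 𝒯 T ![3, 4, 3, 4, 4]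

/-- Topological equivalence of two families of tiles: some homeomorphism of the plane onto
itself maps the tiles of the first bijectively onto the tiles of the second. -/
def TopEquiv (𝒯 𝒯' : Set (Set (ℝ × ℝ))) : Prop :=
  ∃ h : (ℝ × ℝ) ≃ₜ (ℝ × ℝ), (fun T => h '' T) '' 𝒯 = 𝒯'

end Pool.Agent.MP_d3ce6f_co
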