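import Mathlib
import Pool.Agent.MP_d3ce6f_co.Defs

set_option autoImplicit false

namespace Pool.Agent.MP_d3ce6f_co

/-- Offsets of the rows of a binary tiling. -/
structure Dat where
  X : ℤ → ℝ
  e : ℤ → ℤ
  he : ∀ k, e k = 0 ∨ e k = 1
  hX : ∀ k, X (k + 1) = X k - e k * (2 : ℝ) ^ k

namespace Dat

variable (D : Dat)

/-- the tile `j` of row `k` -/
noncomputable def tile (k j : ℤ) : Set (ℝ × ℝ) :=
  Set.Icc (D.X k + j * (2 : ℝ) ^ k) (D.X k + (j + 1) * (2 : ℝ) ^ k) ×ˢ Set.Icc (k : ℝ) (k + 1)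

/-- the family of all tiles -/
noncomputable def tiles : Set (Set (ℝ × ℝ)) :=
  Set.range (fun p : ℤ × ℤ => D.tile p.1 p.2)

/-- normalised horizontal coordinate in row `k` -/
noncomputable def u (k : ℤ) (x : ℝ) : ℝ := (x - D.X k) / (2 : ℝ) ^ k

/-- the left top corner of the tile `(k, m)` -/
noncomputable def vert (k m : ℤ) : ℝ × ℝ := (D.X k + m * (2 : ℝ) ^ k, (k : ℝ) + 1)

theorem u_succ (k : ℤ) (x : ℝ) : D.u (k + 1) x = (D.u k x + D.e k) / 2 := by
  unfold u
  rw [D.hX, zpow_add_one₀ (by norm_num)]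
  have : (2 : ℝ) ^ k ≠ 0 := by positivity
  field_simp
  ring

theorem mem_tile (k j : ℤ) (p : ℝ × ℝ) :
    p ∈ D.tile k j ↔ ((j : ℝ) ≤ D.u k p.1 ∧ D.u k p.1 ≤ j + 1) ∧ (k : ℝ) ≤ p.2 ∧ p.2 ≤ k + 1 := by
  unfold tile u
  have h2 : (0 : ℝ) < (2 : ℝ) ^ k := by positivity
  rw [Set.mem_prod, Set.mem_Icc, Set.mem_Icc, le_div_iff₀ h2, div_le_iff₀ h2]
  constructor
  · rintro ⟨⟨a, b⟩, c, d⟩
    exact ⟨⟨by linarith, by linarith⟩, c, d⟩
  · rintro ⟨⟨a, b⟩, c, d⟩
    exact ⟨⟨by linarith, by linarith⟩, c, d⟩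

theorem u_vert (k m : ℤ) : D.u k (D.vert k m).1 = m := by
  unfold u vert
  have : (2 : ℝ) ^ k ≠ 0 := by positivity
  simp only
  field_simp
  ring

theorem u_vert_succ (k m : ℤ) : D.u (k + 1) (D.vert k m).1 = ((m + D.e k : ℤ) : ℝ) / 2 := by
  rw [u_succ, u_vert]; push_cast; ring

theorem mem_tiles (T : Set (ℝ × ℝ)) : T ∈ D.tiles ↔ ∃ k j, T = D.tile k j := by
  unfold tiles
  constructor
  · rintro ⟨⟨k, j⟩, rfl⟩; exact ⟨k, j, rfl⟩
  · rintro ⟨k, j, rfl⟩; exact ⟨(k, j), rfl⟩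

theorem tile_mem (k j : ℤ) : D.tile k j ∈ D.tiles := ⟨(k, j), rfl⟩

/-- centre of a tile -/
noncomputable def centre (k j : ℤ) : ℝ × ℝ := (D.X k + (j + 1 / 2) * (2 : ℝ) ^ k, (k : ℝ) + 1 / 2)

theorem u_centre (k j : ℤ) : D.u k (D.centre k j).1 = j + 1 / 2 := by
  unfold u centre
  have : (2 : ℝ) ^ k ≠ 0 := by positivity
  simp only
  field_simp
  ring

theorem centre_mem (k j k' j' : ℤ) : D.centre k j ∈ D.tile k' j' ↔ k' = k ∧ j' = j := by
  rw [mem_tile]
  constructor
  · rintro ⟨⟨a, b⟩, c, d⟩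
    simp only [centre] at c d
    have h1 : k' ≤ k := by
      have : (k' : ℝ) < k + 1 := by linarith
      have : k' < k + 1 := by exact_mod_cast this
      omega
    have h2 : k ≤ k' := by
      have : (k : ℝ) < k' + 1 := by linarith
      have : k < k' + 1 := by exact_mod_cast this
      omega
    have hk : k' = k := le_antisymm h1 h2
    subst hk
    rw [u_centre] at a b
    refine ⟨rfl, ?_⟩
    have h3 : j' < j + 1 := by
      have : (j' : ℝ) < j + 1 := by linarith
      exact_mod_cast this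
    have h4 : j < j' + 1 := by
      have : (j : ℝ) < j' + 1 := by linarith
      exact_mod_cast this
    omega
  · rintro ⟨rfl, rfl⟩
    rw [u_centre]
    simp only [centre]
    refine ⟨⟨?_, ?_⟩, ?_, ?_⟩ <;> linarith

theorem tile_inj {k j k' j' : ℤ} (h : D.tile k j = D.tile k' j') : k = k' ∧ j = j' := by
  have h1 : D.centre k j ∈ D.tile k j := (D.centre_mem k j k j).2 ⟨rfl, rfl⟩
  rw [h, centre_mem] at h1
  exact ⟨h1.1.symm, h1.2.symm⟩

theorem tile_eq_iff {k j k' j' : ℤ} : D.tile k j = D.tile k' j' ↔ k = k' ∧ j = j' :=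
  ⟨D.tile_inj, by rintro ⟨rfl, rfl⟩; rfl⟩

/-- Incidence between vertices and tiles. -/
theorem vert_mem (k m k' j : ℤ) : D.vert k m ∈ D.tile k' j ↔
    (k' = k ∧ (j = m ∨ j = m - 1)) ∨ (k' = k + 1 ∧ 2 * j - D.e k ≤ m ∧ m ≤ 2 * j - D.e k + 2) := by
  rw [mem_tile]
  constructor
  · rintro ⟨⟨a, b⟩, c, d⟩
    simp only [vert] at c d
    have h1 : k' ≤ k + 1 := by exact_mod_cast c
    have h2 : k ≤ k' := by
      have : (k : ℝ) + 1 ≤ k' + 1 := d
      have : (k : ℝ) ≤ k' := by linarith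
      exact_mod_cast this
    rcases (by omega : k' = k ∨ k' = k + 1) with rfl | rfl
    · left
      rw [u_vert] at a b
      refine ⟨rfl, ?_⟩
      have h3 : j ≤ m := by exact_mod_cast a
      have h4 : m ≤ j + 1 := by exact_mod_cast b
      omega
    · right
      rw [u_vert_succ] at a b
      refine ⟨rfl, ?_⟩
      have h3 : 2 * j ≤ m + D.e k := by
        have : 2 * (j : ℝ) ≤ ((m + D.e k : ℤ) : ℝ) := by linarith
        exact_mod_cast this
      have h4 : m + D.e k ≤ 2 * (j + 1) := by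
        have : ((m + D.e k : ℤ) : ℝ) ≤ 2 * ((j : ℝ) + 1) := by linarith
        exact_mod_cast this
      omega
  · rintro (⟨rfl, h⟩ | ⟨rfl, h3, h4⟩)
    · rw [u_vert]
      simp only [vert]
      have h3 : j ≤ m := by omega
      have h4 : m ≤ j + 1 := by omega
      have h3' : (j : ℝ) ≤ m := by exact_mod_cast h3
      have h4' : (m : ℝ) ≤ j + 1 := by exact_mod_cast h4
      exact ⟨⟨h3', h4'⟩, by linarith, by linarith⟩
    · rw [u_vert_succ]
      simp only [vert]
      have h3' : 2 * (j : ℝ) ≤ ((m + D.e k : ℤ) : ℝ) := by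
        have : 2 * j ≤ m + D.e k := by omega
        exact_mod_cast this
      have h4' : ((m + D.e k : ℤ) : ℝ) ≤ 2 * ((j : ℝ) + 1) := by
        have : m + D.e k ≤ 2 * (j + 1) := by omega
        exact_mod_cast this
      refine ⟨⟨by linarith, by linarith⟩, ?_, ?_⟩
      · push_cast; linarith
      · push_cast; linarith

theorem vert_inj {k m k' m' : ℤ} (h : D.vert k m = D.vert k' m') : k = k' ∧ m = m' := by
  have h2 := congrArg Prod.snd h
  simp only [vert] at h2
  have hk : k = k' := by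
    have : (k : ℝ) = k' := by linarith
    exact_mod_cast this
  subst hk
  refine ⟨rfl, ?_⟩
  have h1 := D.u_vert k m
  rw [h, u_vert] at h1
  exact_mod_cast h1.symm

/-- the set of tiles containing a point as an image of a set of indices -/
theorem valence_eq (p : ℝ × ℝ) :
    valence D.tiles p = {q : ℤ × ℤ | p ∈ D.tile q.1 q.2}.encard := by
  unfold valence
  have hinj : Function.Injective (fun q : ℤ × ℤ => D.tile q.1 q.2) := by
    rintro ⟨k, j⟩ ⟨k', j'⟩ h
    have := D.tile_inj h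
    exact Prod.ext this.1 this.2
  rw [← hinj.encard_image]
  congr 1
  ext T
  simp only [Set.mem_ofPred_eq, Set.mem_image, mem_tiles]
  constructor
  · rintro ⟨⟨k, j, rfl⟩, h⟩; exact ⟨(k, j), h, rfl⟩
  · rintro ⟨⟨k, j⟩, h, rfl⟩; exact ⟨⟨k, j, rfl⟩, h⟩

theorem valence_vert_even (k m : ℤ) (h : 2 ∣ m + D.e k) : valence D.tiles (D.vert k m) = 4 := by
  rw [valence_eq]
  obtain ⟨c, hc⟩ := h
  have : {q : ℤ × ℤ | D.vert k m ∈ D.tile q.1 q.2}
      = (({(k, m - 1), (k, m), (k + 1, c - 1), (k + 1, c)} : Finset (ℤ × ℤ)) : Set (ℤ × ℤ)) := by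
    ext ⟨k', j⟩
    simp only [Set.mem_ofPred_eq, vert_mem, Finset.coe_insert, Finset.coe_singleton,
      Set.mem_insert_iff, Set.mem_singleton_iff, Prod.mk.injEq]
    omega
  rw [this, Set.encard_coe_eq_coe_finsetCard]
  rw [Finset.card_insert_of_notMem, Finset.card_insert_of_notMem, Finset.card_insert_of_notMem,
    Finset.card_singleton]
  · rfl
  · simp
  · simp
  · simp

theorem valence_vert_odd (k m : ℤ) (h : ¬ 2 ∣ m + D.e k) : valence D.tiles (D.vert k m) = 3 := by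
  rw [valence_eq]
  obtain ⟨c, hc⟩ : ∃ c, m + D.e k = 2 * c + 1 := ⟨(m + D.e k) / 2, by omega⟩
  have : {q : ℤ × ℤ | D.vert k m ∈ D.tile q.1 q.2}
      = (({(k, m - 1), (k, m), (k + 1, c)} : Finset (ℤ × ℤ)) : Set (ℤ × ℤ)) := by
    ext ⟨k', j⟩
    simp only [Set.mem_ofPred_eq, vert_mem, Finset.coe_insert, Finset.coe_singleton,
      Set.mem_insert_iff, Set.mem_singleton_iff, Prod.mk.injEq]
    omega
  rw [this, Set.encard_coe_eq_coe_finsetCard]
  rw [Finset.card_insert_of_notMem, Finset.card_insert_of_notMem, Finset.card_singleton]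
  · rfl
  · simp
  · simp

theorem valence_vert_eq_four (k m : ℤ) : valence D.tiles (D.vert k m) = 4 ↔ 2 ∣ m + D.e k := by
  constructor
  · intro h
    by_contra hn
    rw [D.valence_vert_odd k m hn] at h
    norm_num at h
  · exact D.valence_vert_even k m

theorem valence_vert_eq_three (k m : ℤ) : valence D.tiles (D.vert k m) = 3 ↔ ¬ 2 ∣ m + D.e k := by
  constructor
  · intro h hn
    rw [D.valence_vert_even k m hn] at h
    norm_num at h
  · exact D.valence_vert_odd k m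

/-- Every point lying in at least three tiles is a vertex. -/
theorem exists_vert (p : ℝ × ℝ) (h : 3 ≤ valence D.tiles p) : ∃ k m, p = D.vert k m := by
  by_contra hno
  push Not at hno
  rw [valence_eq] at h
  -- the index set has at most two elements
  have key : ∀ a b : ℤ × ℤ, {q : ℤ × ℤ | p ∈ D.tile q.1 q.2} ⊆ {a, b} → False := by
    intro a b hab
    have h1 := Set.encard_le_encard hab
    have h2 : ({a, b} : Set (ℤ × ℤ)).encard ≤ 2 := by
      refine (Set.encard_insert_le _ _).trans ?_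
      rw [Set.encard_singleton]; norm_num
    have h3 := (h.trans h1).trans h2
    norm_num at h3
  have hgrid : ∀ k m : ℤ, p.2 = (k : ℝ) + 1 → D.u k p.1 ≠ m := by
    intro k m hk hm
    apply hno k m
    unfold u at hm
    have h2 : (2 : ℝ) ^ k ≠ 0 := by positivity
    rw [div_eq_iff h2] at hm
    refine Prod.ext ?_ hk
    simp only [vert]
    linarith
  by_cases hy : ∃ K : ℤ, p.2 = (K : ℝ) + 1
  · obtain ⟨K, hK⟩ := hy
    have hu : ∀ m : ℤ, D.u K p.1 ≠ m := fun m => hgrid K m hK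
    have hu' : ∀ m : ℤ, D.u (K + 1) p.1 ≠ m := by
      intro m hm
      rw [u_succ] at hm
      apply hu (2 * m - D.e K)
      push_cast
      linarith
    apply key (K, ⌊D.u K p.1⌋) (K + 1, ⌊D.u (K + 1) p.1⌋)
    rintro ⟨k, j⟩ hq
    simp only [Set.mem_ofPred_eq, mem_tile] at hq
    obtain ⟨⟨a, b⟩, c, d⟩ := hq
    rw [hK] at c d
    have h1 : k ≤ K + 1 := by exact_mod_cast c
    have h2 : K ≤ k := by
      have : (K : ℝ) ≤ k := by linarith
      exact_mod_cast this
    rcases (by omega : k = K ∨ k = K + 1) with rfl | rfl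
    · left
      have hb : D.u k p.1 < j + 1 := lt_of_le_of_ne b (by have := hu (j + 1); push_cast at this; exact this)
      have : ⌊D.u k p.1⌋ = j := Int.floor_eq_iff.2 ⟨a, hb⟩
      rw [this]
    · right
      have hb : D.u (K + 1) p.1 < j + 1 :=
        lt_of_le_of_ne b (by have := hu' (j + 1); push_cast at this; exact this)
      have : ⌊D.u (K + 1) p.1⌋ = j := Int.floor_eq_iff.2 ⟨a, hb⟩
      rw [Set.mem_singleton_iff, this]
  · push Not at hy
    set k0 : ℤ := ⌊p.2⌋ with hk0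
    apply key (k0, ⌊D.u k0 p.1⌋) (k0, ⌈D.u k0 p.1⌉ - 1)
    rintro ⟨k, j⟩ hq
    simp only [Set.mem_ofPred_eq, mem_tile] at hq
    obtain ⟨⟨a, b⟩, c, d⟩ := hq
    have hd : p.2 < k + 1 := lt_of_le_of_ne d (hy k)
    have hk : k0 = k := Int.floor_eq_iff.2 ⟨c, hd⟩
    rw [hk]
    rcases lt_or_eq_of_le b with hb | hb
    · left
      have : ⌊D.u k p.1⌋ = j := Int.floor_eq_iff.2 ⟨a, hb⟩
      rw [this]
    · right
      rw [hb]
      have : ⌈(j : ℝ) + 1⌉ = j + 1 := by
        have := Int.ceil_intCast (R := ℝ) (j + 1)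
        push_cast at this
        exact this
      rw [Set.mem_singleton_iff, this]
      simp

theorem vert_of_four {p : ℝ × ℝ} (h : valence D.tiles p = 4) :
    ∃ k m, p = D.vert k m ∧ 2 ∣ m + D.e k := by
  obtain ⟨k, m, rfl⟩ := D.exists_vert p (by rw [h]; norm_num)
  exact ⟨k, m, rfl, (D.valence_vert_eq_four k m).1 h⟩

theorem vert_of_three {p : ℝ × ℝ} (h : valence D.tiles p = 3) :
    ∃ k m, p = D.vert k m ∧ ¬ 2 ∣ m + D.e k := by
  obtain ⟨k, m, rfl⟩ := D.exists_vert p (by rw [h])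
  exact ⟨k, m, rfl, (D.valence_vert_eq_three k m).1 h⟩

end Dat

end Pool.Agent.MP_d3ce6f_co
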