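import Mathlib
import Pool.Agent.MP_d3ce6f_co.Comb

set_option autoImplicit false

namespace Pool.Agent.MP_d3ce6f_co

section intrinsic

variable (𝒯 : Set (Set (ℝ × ℝ)))

def Middle (T : Set (ℝ × ℝ)) (v : ℝ × ℝ) : Prop :=
  T ∈ 𝒯 ∧ v ∈ T ∧ valence 𝒯 v = 4 ∧
    ∀ S ∈ 𝒯, S ≠ T → v ∈ S → ∀ w ∈ T, w ∈ S → w ≠ v → valence 𝒯 w ≠ 4

def Sib (T T' : Set (ℝ × ℝ)) : Prop :=
  T ≠ T' ∧ ∃ v, Middle 𝒯 T v ∧ Middle 𝒯 T' v

def IsParent (P T : Set (ℝ × ℝ)) : Prop :=
  P ∈ 𝒯 ∧ ∃ T', Sib 𝒯 T T' ∧ P ≠ T ∧ P ≠ T' ∧ ∃ p, p ∈ T ∧ p ∈ T' ∧ p ∈ P ∧ valence 𝒯 p = 3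

def Same (A : Set (ℝ × ℝ)) : Prop :=
  ∃ B B', IsParent 𝒯 B A ∧ Sib 𝒯 B B' ∧ ∀ p ∈ A, p ∈ B' → valence 𝒯 p ≠ 4

def HasSeq (X : Set (ℝ × ℝ)) (δ : ℕ → Bool) : Prop :=
  ∃ A : ℕ → Set (ℝ × ℝ), A 0 = X ∧ ∀ n, IsParent 𝒯 (A (n + 1)) (A n) ∧ (Same 𝒯 (A n) ↔ δ n = true)

variable (h : (ℝ × ℝ) ≃ (ℝ × ℝ))

theorem image_mem_iff (T : Set (ℝ × ℝ)) :
    h '' T ∈ (fun T => h '' T) '' 𝒯 ↔ T ∈ 𝒯 := by
  constructor
  · rintro ⟨S, hS, hST⟩
    have : S = T := h.injective.image_injective hST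
    rwa [← this]
  · intro hT; exact ⟨T, hT, rfl⟩

theorem valence_image (x : ℝ × ℝ) :
    valence ((fun T => h '' T) '' 𝒯) (h x) = valence 𝒯 x := by
  unfold valence
  rw [← (h.injective.image_injective).encard_image {T | T ∈ 𝒯 ∧ x ∈ T}]
  congr 1
  ext T
  constructor
  · rintro ⟨⟨S, hS, rfl⟩, hx⟩
    refine ⟨S, ⟨hS, ?_⟩, rfl⟩
    exact (h.injective.mem_set_image).1 hx
  · rintro ⟨S, ⟨hS, hx⟩, rfl⟩
    exact ⟨⟨S, hS, rfl⟩, (h.injective.mem_set_image).2 hx⟩

theorem middle_image (T : Set (ℝ × ℝ)) (v : ℝ × ℝ) :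
    Middle ((fun T => h '' T) '' 𝒯) (h '' T) (h v) ↔ Middle 𝒯 T v := by
  unfold Middle
  rw [image_mem_iff, h.injective.mem_set_image, valence_image, Set.forall_mem_image]
  simp only [Set.forall_mem_image, h.injective.mem_set_image, valence_image, ne_eq,
    h.injective.image_injective.eq_iff, h.injective.eq_iff]

theorem sib_image (T T' : Set (ℝ × ℝ)) :
    Sib ((fun T => h '' T) '' 𝒯) (h '' T) (h '' T') ↔ Sib 𝒯 T T' := by
  unfold Sib
  rw [h.surjective.exists]
  simp only [middle_image, ne_eq, h.injective.image_injective.eq_iff]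

theorem isParent_image (P T : Set (ℝ × ℝ)) :
    IsParent ((fun T => h '' T) '' 𝒯) (h '' P) (h '' T) ↔ IsParent 𝒯 P T := by
  unfold IsParent
  rw [image_mem_iff, (Set.image_surjective.2 h.surjective).exists]
  refine and_congr Iff.rfl (exists_congr fun T' => ?_)
  rw [sib_image, h.surjective.exists]
  simp only [ne_eq, h.injective.image_injective.eq_iff,
    h.injective.mem_set_image, valence_image]

theorem same_image (A : Set (ℝ × ℝ)) :
    Same ((fun T => h '' T) '' 𝒯) (h '' A) ↔ Same 𝒯 A := by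
  unfold Same
  rw [(Set.image_surjective.2 h.surjective).exists]
  refine exists_congr fun B => ?_
  rw [(Set.image_surjective.2 h.surjective).exists]
  refine exists_congr fun B' => ?_
  rw [isParent_image, sib_image]
  simp only [Set.forall_mem_image, h.injective.mem_set_image, valence_image]

theorem hasSeq_image (X : Set (ℝ × ℝ)) (δ : ℕ → Bool) (hs : HasSeq 𝒯 X δ) :
    HasSeq ((fun T => h '' T) '' 𝒯) (h '' X) δ := by
  obtain ⟨A, hA0, hA⟩ := hs
  refine ⟨fun n => h '' (A n), by simp only [hA0], ?_⟩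
  intro n
  rw [isParent_image, same_image]
  exact hA n

end intrinsic

namespace Dat

variable (D : Dat)

/-- the index shift from the left bottom corner to the inner bottom corner -/
def sh (k j : ℤ) : ℤ := if 2 ∣ j + D.e k then 2 else 0

theorem middle_iff (k j : ℤ) (v : ℝ × ℝ) :
    Middle D.tiles (D.tile (k + 1) j) v ↔ v = D.vert k (2 * j - D.e k + D.sh (k + 1) j) := by
  have hek := D.he k
  have hek1 := D.he (k + 1)
  constructor
  · rintro ⟨-, hv, h4, hS⟩
    obtain ⟨K, m, rfl, hpar⟩ := D.vert_of_four h4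
    rw [vert_mem] at hv
    rcases hv with ⟨rfl, hm | hm⟩ | ⟨hk, h1, h2⟩
    · -- top left
      exfalso
      subst hm
      refine hS (D.tile (k + 1) (j - 1)) (D.tile_mem _ _) ?_ ?_ (D.vert k (2 * j - D.e k)) ?_ ?_ ?_ ?_
      · rw [ne_eq, tile_eq_iff]; omega
      · rw [vert_mem]; omega
      · rw [vert_mem]; omega
      · rw [vert_mem]; omega
      · intro h; have := D.vert_inj h; omega
      · rw [valence_vert_eq_four]; omega
    · -- top right
      exfalso
      have hm' : m = j + 1 := by omega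
      subst hm'
      refine hS (D.tile (k + 1) (j + 1)) (D.tile_mem _ _) ?_ ?_
        (D.vert k (2 * j - D.e k + 2)) ?_ ?_ ?_ ?_
      · rw [ne_eq, tile_eq_iff]; omega
      · rw [vert_mem]; omega
      · rw [vert_mem]; omega
      · rw [vert_mem]; omega
      · intro h; have := D.vert_inj h; omega
      · rw [valence_vert_eq_four]; omega
    · have hk' : K = k := by omega
      subst hk'
      have hm : m = 2 * j - D.e K ∨ m = 2 * j - D.e K + 2 := by omega
      unfold sh
      split_ifs with hpj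
      · rcases hm with hm | hm
        · exfalso
          subst hm
          refine hS (D.tile (K + 1) (j - 1)) (D.tile_mem _ _) ?_ ?_ (D.vert (K + 1) j) ?_ ?_ ?_ ?_
          · rw [ne_eq, tile_eq_iff]; omega
          · rw [vert_mem]; omega
          · rw [vert_mem]; omega
          · rw [vert_mem]; omega
          · intro h; have := D.vert_inj h; omega
          · rw [valence_vert_eq_four]; omega
        · rw [hm]
      · rcases hm with hm | hm
        · rw [hm, add_zero]
        · exfalso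
          subst hm
          refine hS (D.tile (K + 1) (j + 1)) (D.tile_mem _ _) ?_ ?_
            (D.vert (K + 1) (j + 1)) ?_ ?_ ?_ ?_
          · rw [ne_eq, tile_eq_iff]; omega
          · rw [vert_mem]; omega
          · rw [vert_mem]; omega
          · rw [vert_mem]; omega
          · intro h; have := D.vert_inj h; omega
          · rw [valence_vert_eq_four]; omega
  · rintro rfl
    refine ⟨D.tile_mem _ _, ?_, ?_, ?_⟩
    · rw [vert_mem]; unfold sh; split_ifs <;> omega
    · rw [valence_vert_eq_four]; unfold sh; split_ifs <;> omega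
    · intro S hS hne hvS w hwT hwS hwv h4
      obtain ⟨k', j', rfl⟩ := (D.mem_tiles S).1 hS
      obtain ⟨K, m, rfl, hpar⟩ := D.vert_of_four h4
      rw [vert_mem] at hvS hwT hwS
      rw [ne_eq, tile_eq_iff] at hne
      have hwv' : ¬ (K = k ∧ m = 2 * j - D.e k + D.sh (k + 1) j) := by
        rintro ⟨rfl, rfl⟩; exact hwv rfl
      unfold sh at hvS hwv'
      rcases hwT with ⟨hK, hm⟩ | ⟨hK, hm1, hm2⟩
      · subst hK
        split_ifs at hvS hwv' <;> omega
      · have hK' : K = k := by omega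
        subst hK'
        split_ifs at hvS hwv' <;> omega

theorem sib_iff (k j : ℤ) (T' : Set (ℝ × ℝ)) :
    Sib D.tiles (D.tile k j) T' ↔ T' = D.tile k (if 2 ∣ j + D.e k then j + 1 else j - 1) := by
  obtain ⟨k, rfl⟩ : ∃ k₀, k = k₀ + 1 := ⟨k - 1, by omega⟩
  have hek := D.he k
  have hek1 := D.he (k + 1)
  constructor
  · rintro ⟨hne, v, h1, h2⟩
    obtain ⟨k', j', rfl⟩ := (D.mem_tiles T').1 h2.1
    obtain ⟨k', rfl⟩ : ∃ k₀, k' = k₀ + 1 := ⟨k' - 1, by omega⟩
    rw [middle_iff] at h1 h2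
    rw [h1] at h2
    obtain ⟨hk, hm⟩ := D.vert_inj h2
    subst hk
    rw [ne_eq, tile_eq_iff] at hne
    rw [tile_eq_iff]
    refine ⟨rfl, ?_⟩
    unfold sh at hm
    split_ifs at hm ⊢ <;> omega
  · rintro rfl
    refine ⟨?_, D.vert k (2 * j - D.e k + D.sh (k + 1) j), ?_, ?_⟩
    · rw [ne_eq, tile_eq_iff]
      split_ifs <;> omega
    · rw [middle_iff]
    · rw [middle_iff]
      congr 1
      unfold sh
      split_ifs <;> omega

theorem isParent_iff (k j : ℤ) (P : Set (ℝ × ℝ)) :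
    IsParent D.tiles P (D.tile k j) ↔ P = D.tile (k + 1) ((j + D.e k) / 2) := by
  have hek := D.he k
  have hek1 := D.he (k - 1)
  constructor
  · rintro ⟨hP, T', hT', hne1, hne2, p, hp1, hp2, hp3, h3⟩
    rw [sib_iff] at hT'
    subst hT'
    obtain ⟨k', j', rfl⟩ := (D.mem_tiles P).1 hP
    obtain ⟨K, m, rfl, hpar⟩ := D.vert_of_three h3
    rw [vert_mem] at hp1 hp2 hp3
    rw [ne_eq, tile_eq_iff] at hne1 hne2
    rw [tile_eq_iff]
    rcases hp1 with ⟨hK, hm⟩ | ⟨hK, hm1, hm2⟩
    · subst hK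
      split_ifs at hp2 hne2 <;> omega
    · have hK' : K = k - 1 := by omega
      subst hK'
      split_ifs at hp2 hne2 <;> omega
  · rintro rfl
    refine ⟨D.tile_mem _ _, D.tile k (if 2 ∣ j + D.e k then j + 1 else j - 1), ?_, ?_, ?_, ?_⟩
    · rw [sib_iff]
    · rw [ne_eq, tile_eq_iff]; omega
    · rw [ne_eq, tile_eq_iff]; omega
    · refine ⟨D.vert k (if 2 ∣ j + D.e k then j + 1 else j), ?_, ?_, ?_, ?_⟩
      · rw [vert_mem]; split_ifs <;> omega
      · rw [vert_mem]; split_ifs <;> omega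
      · rw [vert_mem]; split_ifs <;> omega
      · rw [valence_vert_eq_three]; split_ifs <;> omega

theorem same_iff (k j : ℤ) :
    Same D.tiles (D.tile k j) ↔ (2 ∣ j + D.e k ↔ 2 ∣ (j + D.e k) / 2 + D.e (k + 1)) := by
  have hek := D.he k
  have hek1 := D.he (k - 1)
  have hek2 := D.he (k + 1)
  constructor
  · rintro ⟨B, B', hB, hB', hp⟩
    rw [isParent_iff] at hB
    subst hB
    rw [sib_iff] at hB'
    subst hB'
    by_contra hcon
    by_cases h1 : 2 ∣ j + D.e k
    · -- left child of a right child: top left corner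
      apply hp (D.vert k j)
      · rw [vert_mem]; omega
      · rw [vert_mem]; split_ifs <;> omega
      · rw [valence_vert_eq_four]; omega
    · apply hp (D.vert k (j + 1))
      · rw [vert_mem]; omega
      · rw [vert_mem]; split_ifs <;> omega
      · rw [valence_vert_eq_four]; omega
  · intro hiff
    refine ⟨_, _, (D.isParent_iff k j _).2 rfl, (D.sib_iff _ _ _).2 rfl, ?_⟩
    intro p hp1 hp2 h4
    obtain ⟨K, m, rfl, hpar⟩ := D.vert_of_four h4
    rw [vert_mem] at hp1 hp2
    rcases hp1 with ⟨hK, hm⟩ | ⟨hK, hm1, hm2⟩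
    · subst hK
      split_ifs at hp2 <;> omega
    · have hK' : K = k - 1 := by omega
      subst hK'
      omega

theorem parent_unique {P P' : Set (ℝ × ℝ)} {T : Set (ℝ × ℝ)}
    (h : IsParent D.tiles P T) (h' : IsParent D.tiles P' T) : P = P' := by
  have hT : T ∈ D.tiles := by
    obtain ⟨-, T', ⟨-, v, h1, -⟩, -⟩ := h
    exact h1.1
  obtain ⟨k, j, rfl⟩ := (D.mem_tiles T).1 hT
  rw [isParent_iff] at h h'
  rw [h, h']

theorem hasSeq_unique {X : Set (ℝ × ℝ)} {δ δ' : ℕ → Bool}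
    (h : HasSeq D.tiles X δ) (h' : HasSeq D.tiles X δ') : δ = δ' := by
  obtain ⟨A, hA0, hA⟩ := h
  obtain ⟨A', hA0', hA'⟩ := h'
  have hAA : ∀ n, A n = A' n := by
    intro n
    induction n with
    | zero => rw [hA0, hA0']
    | succ n ih =>
      have h1 := (hA n).1
      have h2 := (hA' n).1
      rw [ih] at h1
      exact D.parent_unique h1 h2
  funext n
  have h1 := (hA n).2
  have h2 := (hA' n).2
  rw [hAA n] at h1
  have h3 : (δ n = true) ↔ (δ' n = true) := h1.symm.trans h2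
  exact Bool.eq_iff_iff.2 h3

theorem tiles_countable : D.tiles.Countable := Set.countable_range _

/-- Only countably many sequences are realised in a given binary tiling. -/
theorem countable_seq : {δ : ℕ → Bool | ∃ X ∈ D.tiles, HasSeq D.tiles X δ}.Countable := by
  classical
  have : {δ : ℕ → Bool | ∃ X ∈ D.tiles, HasSeq D.tiles X δ}
      ⊆ ⋃ X ∈ D.tiles, {δ : ℕ → Bool | HasSeq D.tiles X δ} := by
    rintro δ ⟨X, hX, h⟩
    exact Set.mem_biUnion hX h
  refine Set.Countable.mono this ?_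
  refine D.tiles_countable.biUnion ?_
  intro X _
  apply Set.Subsingleton.countable
  intro δ h δ' h'
  exact D.hasSeq_unique h h'

end Dat

end Pool.Agent.MP_d3ce6f_co
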