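import Mathlib
import Pool.Agent.MP_d3ce6f_co.Comb

set_option autoImplicit false

open Set

namespace Pool.Agent.MP_d3ce6f_co

namespace Dat

variable (D : Dat)

theorem tile_isClosed (k j : ℤ) : IsClosed (D.tile k j) := isClosed_Icc.prod isClosed_Icc

theorem tile_isCompact (k j : ℤ) : IsCompact (D.tile k j) := isCompact_Icc.prod isCompact_Icc

theorem tile_convex (k j : ℤ) : Convex ℝ (D.tile k j) := (convex_Icc _ _).prod (convex_Icc _ _)

theorem interior_tile (k j : ℤ) : interior (D.tile k j) =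
    Ioo (D.X k + j * (2 : ℝ) ^ k) (D.X k + (j + 1) * (2 : ℝ) ^ k) ×ˢ Ioo (k : ℝ) (k + 1) := by
  unfold tile
  rw [interior_prod_eq, interior_Icc, interior_Icc]

theorem mem_interior_tile (k j : ℤ) (p : ℝ × ℝ) : p ∈ interior (D.tile k j) ↔
    ((j : ℝ) < D.u k p.1 ∧ D.u k p.1 < j + 1) ∧ (k : ℝ) < p.2 ∧ p.2 < k + 1 := by
  rw [interior_tile]
  unfold u
  have h2 : (0 : ℝ) < (2 : ℝ) ^ k := by positivity
  rw [Set.mem_prod, Set.mem_Ioo, Set.mem_Ioo, lt_div_iff₀ h2, div_lt_iff₀ h2]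
  constructor
  · rintro ⟨⟨a, b⟩, c, d⟩
    exact ⟨⟨by linarith, by linarith⟩, c, d⟩
  · rintro ⟨⟨a, b⟩, c, d⟩
    exact ⟨⟨by linarith, by linarith⟩, c, d⟩

theorem centre_mem_interior (k j : ℤ) : D.centre k j ∈ interior (D.tile k j) := by
  rw [mem_interior_tile, u_centre]
  simp only [centre]
  refine ⟨⟨?_, ?_⟩, ?_, ?_⟩ <;> linarith

theorem mem_frontier_tile (k j : ℤ) (p : ℝ × ℝ) : p ∈ frontier (D.tile k j) ↔
    p ∈ D.tile k j ∧ (D.u k p.1 = j ∨ D.u k p.1 = j + 1 ∨ p.2 = k ∨ p.2 = k + 1) := by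
  rw [frontier, (D.tile_isClosed k j).closure_eq, Set.mem_sdiff, mem_interior_tile]
  constructor
  · rintro ⟨h1, h2⟩
    refine ⟨h1, ?_⟩
    rw [mem_tile] at h1
    obtain ⟨⟨a, b⟩, c, d⟩ := h1
    by_contra hno
    push Not at hno
    obtain ⟨n1, n2, n3, n4⟩ := hno
    apply h2
    exact ⟨⟨lt_of_le_of_ne a n1.symm, lt_of_le_of_ne b n2⟩, lt_of_le_of_ne c n3.symm,
      lt_of_le_of_ne d n4⟩
  · rintro ⟨h1, h2⟩
    refine ⟨h1, ?_⟩
    rintro ⟨⟨a, b⟩, c, d⟩
    rcases h2 with h | h | h | h <;> linarith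

theorem tile_disk (k j : ℤ) :
    Nonempty (D.tile k j ≃ₜ Metric.closedBall (0 : EuclideanSpace ℝ (Fin 2)) 1) := by
  have L : (ℝ × ℝ) ≃L[ℝ] EuclideanSpace ℝ (Fin 2) :=
    ContinuousLinearEquiv.ofFinrankEq (by simp)
  set s : Set (EuclideanSpace ℝ (Fin 2)) := L '' D.tile k j with hs
  have hsc : Convex ℝ s := (D.tile_convex k j).linear_image L.toLinearEquiv.toLinearMap
  have hscomp : IsCompact s := (D.tile_isCompact k j).image L.continuous
  have hsne : (interior s).Nonempty := by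
    have : interior s = L '' interior (D.tile k j) := by
      have := L.toHomeomorph.image_interior (D.tile k j)
      exact this.symm
    rw [this]
    exact ⟨_, mem_image_of_mem _ (D.centre_mem_interior k j)⟩
  obtain ⟨e, -, he, -⟩ :=
    exists_homeomorph_image_interior_closure_frontier_eq_unitBall hsc hsne hscomp.isBounded
  rw [hscomp.isClosed.closure_eq] at he
  let H : (ℝ × ℝ) ≃ₜ EuclideanSpace ℝ (Fin 2) := L.toHomeomorph.trans e
  have hH : H '' D.tile k j = Metric.closedBall (0 : EuclideanSpace ℝ (Fin 2)) 1 := by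
    rw [← he, hs, Set.image_image]
    rfl
  exact ⟨(H.image (D.tile k j)).trans (Homeomorph.setCongr hH)⟩

theorem isTiling : IsTiling D.tiles where
  countable := Set.countable_range _
  isClosed := by
    intro T hT
    obtain ⟨k, j, rfl⟩ := (D.mem_tiles T).1 hT
    exact D.tile_isClosed k j
  covers := by
    rw [Set.eq_univ_iff_forall]
    intro p
    refine ⟨D.tile ⌊p.2⌋ ⌊D.u ⌊p.2⌋ p.1⌋, D.tile_mem _ _, ?_⟩
    rw [mem_tile]
    exact ⟨⟨Int.floor_le _, (Int.lt_floor_add_one _).le⟩, Int.floor_le _,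
      (Int.lt_floor_add_one _).le⟩
  interiors := by
    intro S hS T hT hne
    obtain ⟨k, j, rfl⟩ := (D.mem_tiles S).1 hS
    obtain ⟨k', j', rfl⟩ := (D.mem_tiles T).1 hT
    rw [Set.disjoint_left]
    intro p hp hp'
    rw [mem_interior_tile] at hp hp'
    obtain ⟨⟨a, b⟩, c, d⟩ := hp
    obtain ⟨⟨a', b'⟩, c', d'⟩ := hp'
    have hk : k = k' := by
      have h1 : k < k' + 1 := by
        have : (k : ℝ) < k' + 1 := by linarith
        exact_mod_cast this
      have h2 : k' < k + 1 := by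
        have : (k' : ℝ) < k + 1 := by linarith
        exact_mod_cast this
      omega
    subst hk
    have hj : j = j' := by
      have h1 : j < j' + 1 := by
        have : (j : ℝ) < j' + 1 := by linarith
        exact_mod_cast this
      have h2 : j' < j + 1 := by
        have : (j' : ℝ) < j + 1 := by linarith
        exact_mod_cast this
      omega
    exact hne (by rw [hj])
  disk := by
    intro T hT
    obtain ⟨k, j, rfl⟩ := (D.mem_tiles T).1 hT
    exact D.tile_disk k j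
  inter := by
    intro S hS T hT _
    obtain ⟨k, j, rfl⟩ := (D.mem_tiles S).1 hS
    obtain ⟨k', j', rfl⟩ := (D.mem_tiles T).1 hT
    rcases Set.eq_empty_or_nonempty (D.tile k j ∩ D.tile k' j') with h | h
    · exact Or.inl h
    · exact Or.inr ⟨h, ((D.tile_convex k j).inter (D.tile_convex k' j')).isPreconnected⟩
  nonsingular := by
    intro x
    refine ⟨Ioo (x.1 - 1) (x.1 + 1) ×ˢ Ioo (x.2 - 1) (x.2 + 1), ?_, ?_⟩
    · exact prod_mem_nhds (Ioo_mem_nhds (by linarith) (by linarith))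
        (Ioo_mem_nhds (by linarith) (by linarith))
    · have hfin : (⋃ k ∈ Set.Icc (⌊x.2⌋ - 2) (⌊x.2⌋ + 2),
          (fun j => D.tile k j) '' Set.Icc (⌊D.u k (x.1 - 1)⌋ - 1) (⌊D.u k (x.1 + 1)⌋ + 1)).Finite := by
        refine (Set.finite_Icc _ _).biUnion ?_
        intro k _
        exact (Set.finite_Icc _ _).image _
      refine hfin.subset ?_
      rintro T ⟨hT, p, hpT, hp1, hp2⟩
      obtain ⟨k, j, rfl⟩ := (D.mem_tiles T).1 hT
      rw [mem_tile] at hpT
      obtain ⟨⟨a, b⟩, c, d⟩ := hpT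
      have hf1 := Int.floor_le x.2
      have hf2 := Int.lt_floor_add_one x.2
      rw [Set.mem_Ioo] at hp1 hp2
      have hk1 : ⌊x.2⌋ - 2 ≤ k := by
        have : (⌊x.2⌋ : ℝ) < k + 2 := by linarith
        have : ⌊x.2⌋ < k + 2 := by exact_mod_cast this
        omega
      have hk2 : k ≤ ⌊x.2⌋ + 2 := by
        have : (k : ℝ) < ⌊x.2⌋ + 2 := by linarith
        have : k < ⌊x.2⌋ + 2 := by exact_mod_cast this
        omega
      refine Set.mem_biUnion (show k ∈ Set.Icc (⌊x.2⌋ - 2) (⌊x.2⌋ + 2) from ⟨hk1, hk2⟩) ?_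
      refine ⟨j, ⟨?_, ?_⟩, rfl⟩
      · have h1 : D.u k (x.1 - 1) ≤ D.u k p.1 := by
          unfold u
          have h2 : (0 : ℝ) < (2 : ℝ) ^ k := by positivity
          apply div_le_div_of_nonneg_right _ h2.le
          linarith [hp1.1]
        have h2 := Int.floor_le (D.u k (x.1 - 1))
        have : (⌊D.u k (x.1 - 1)⌋ : ℝ) ≤ j + 1 := by linarith
        have : ⌊D.u k (x.1 - 1)⌋ ≤ j + 1 := by exact_mod_cast this
        omega
      · have h1 : D.u k p.1 ≤ D.u k (x.1 + 1) := by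
          unfold u
          have h2 : (0 : ℝ) < (2 : ℝ) ^ k := by positivity
          apply div_le_div_of_nonneg_right _ h2.le
          linarith [hp1.2]
        have h2 := Int.lt_floor_add_one (D.u k (x.1 + 1))
        have : (j : ℝ) < ⌊D.u k (x.1 + 1)⌋ + 1 := by linarith
        have : j < ⌊D.u k (x.1 + 1)⌋ + 1 := by exact_mod_cast this
        omega

end Dat

/-- truncation to the unit interval -/
noncomputable def clamp (z : ℝ) : ℝ := max 0 (min z 1)

theorem clamp_continuous : Continuous clamp := by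
  unfold clamp
  fun_prop

theorem clamp_of_le {z : ℝ} (h : z ≤ 0) : clamp z = 0 := by
  unfold clamp
  rw [min_eq_left (by linarith), max_eq_left h]

theorem clamp_of_ge {z : ℝ} (h : 1 ≤ z) : clamp z = 1 := by
  unfold clamp
  rw [min_eq_right h, max_eq_right (by norm_num)]

theorem clamp_of_mem {z : ℝ} (h0 : 0 ≤ z) (h1 : z ≤ 1) : clamp z = z := by
  unfold clamp
  rw [min_eq_left h1, max_eq_right h0]

/-- horizontal coordinate of the standard traversal of the boundary of the unit square -/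
noncomputable def pa (t : ℝ) : ℝ :=
  clamp (4 * t + 1 / 2) - clamp (4 * t + 1 / 2 - 2) + clamp (4 * t + 1 / 2 - 4)

/-- vertical coordinate of the standard traversal of the boundary of the unit square -/
noncomputable def pb (t : ℝ) : ℝ := clamp (4 * t + 1 / 2 - 1) - clamp (4 * t + 1 / 2 - 3)

theorem pa_continuous : Continuous pa := by
  unfold pa
  have := clamp_continuous
  fun_prop

theorem pb_continuous : Continuous pb := by
  unfold pb
  have := clamp_continuous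
  fun_prop

theorem segs (t : ℝ) (h0 : 0 ≤ t) (h1 : t ≤ 1) :
    (4 * t + 1 / 2 ≤ 1 ∧ pa t = 4 * t + 1 / 2 ∧ pb t = 0) ∨
    ((1 ≤ 4 * t + 1 / 2 ∧ 4 * t + 1 / 2 ≤ 2) ∧ pa t = 1 ∧ pb t = 4 * t + 1 / 2 - 1) ∨
    ((2 ≤ 4 * t + 1 / 2 ∧ 4 * t + 1 / 2 ≤ 3) ∧ pa t = 3 - (4 * t + 1 / 2) ∧ pb t = 1) ∨
    ((3 ≤ 4 * t + 1 / 2 ∧ 4 * t + 1 / 2 ≤ 4) ∧ pa t = 0 ∧ pb t = 4 - (4 * t + 1 / 2)) ∨
    (4 ≤ 4 * t + 1 / 2 ∧ pa t = 4 * t + 1 / 2 - 4 ∧ pb t = 0) := by
  unfold pa pb
  rcases le_total (4 * t + 1 / 2) 1 with h | h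
  · left
    refine ⟨h, ?_, ?_⟩
    · rw [clamp_of_mem (by linarith) h, clamp_of_le (by linarith), clamp_of_le (by linarith)]; ring
    · rw [clamp_of_le (by linarith), clamp_of_le (by linarith)]; ring
  right
  rcases le_total (4 * t + 1 / 2) 2 with h' | h'
  · left
    refine ⟨⟨h, h'⟩, ?_, ?_⟩
    · rw [clamp_of_ge h, clamp_of_le (by linarith), clamp_of_le (by linarith)]; ring
    · rw [clamp_of_mem (by linarith) (by linarith), clamp_of_le (by linarith)]; ring
  right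
  rcases le_total (4 * t + 1 / 2) 3 with h'' | h''
  · left
    refine ⟨⟨h', h''⟩, ?_, ?_⟩
    · rw [clamp_of_ge h, clamp_of_mem (by linarith) (by linarith), clamp_of_le (by linarith)]; ring
    · rw [clamp_of_ge (by linarith), clamp_of_le (by linarith)]; ring
  right
  rcases le_total (4 * t + 1 / 2) 4 with h3 | h3
  · left
    refine ⟨⟨h'', h3⟩, ?_, ?_⟩
    · rw [clamp_of_ge h, clamp_of_ge (by linarith), clamp_of_le (by linarith)]; ring
    · rw [clamp_of_ge (by linarith), clamp_of_mem (by linarith) (by linarith)]; ring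
  right
  refine ⟨h3, ?_, ?_⟩
  · rw [clamp_of_ge h, clamp_of_ge (by linarith), clamp_of_mem (by linarith) (by linarith)]; ring
  · rw [clamp_of_ge (by linarith), clamp_of_ge (by linarith)]; ring

theorem std_inj {s t : ℝ} (hs : s ∈ Ico (0 : ℝ) 1) (ht : t ∈ Ico (0 : ℝ) 1)
    (ha : pa s = pa t) (hb : pb s = pb t) : s = t := by
  obtain ⟨hs0, hs1⟩ := hs
  obtain ⟨ht0, ht1⟩ := ht
  rcases segs s hs0 hs1.le with ⟨h1, h2, h3⟩ | ⟨⟨h1, h1'⟩, h2, h3⟩ | ⟨⟨h1, h1'⟩, h2, h3⟩ |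
      ⟨⟨h1, h1'⟩, h2, h3⟩ | ⟨h1, h2, h3⟩ <;>
    rcases segs t ht0 ht1.le with ⟨g1, g2, g3⟩ | ⟨⟨g1, g1'⟩, g2, g3⟩ | ⟨⟨g1, g1'⟩, g2, g3⟩ |
      ⟨⟨g1, g1'⟩, g2, g3⟩ | ⟨g1, g2, g3⟩ <;>
    rw [h2, g2] at ha <;> rw [h3, g3] at hb <;> linarith

theorem std_mem {t : ℝ} (ht : t ∈ Icc (0 : ℝ) 1) :
    (0 ≤ pa t ∧ pa t ≤ 1) ∧ (0 ≤ pb t ∧ pb t ≤ 1) ∧ (pa t = 0 ∨ pa t = 1 ∨ pb t = 0 ∨ pb t = 1) := by
  obtain ⟨h0, h1⟩ := ht
  rcases segs t h0 h1 with ⟨g1, g2, g3⟩ | ⟨⟨g1, g1'⟩, g2, g3⟩ | ⟨⟨g1, g1'⟩, g2, g3⟩ |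
      ⟨⟨g1, g1'⟩, g2, g3⟩ | ⟨g1, g2, g3⟩ <;> rw [g2, g3] <;>
    refine ⟨⟨by linarith, by linarith⟩, ⟨by linarith, by linarith⟩, ?_⟩ <;> simp

theorem std_surj {a b : ℝ} (ha0 : 0 ≤ a) (ha1 : a ≤ 1) (hb0 : 0 ≤ b) (hb1 : b ≤ 1)
    (h : a = 0 ∨ a = 1 ∨ b = 0 ∨ b = 1) : ∃ t ∈ Icc (0 : ℝ) 1, pa t = a ∧ pb t = b := by
  have mk : ∀ s : ℝ, 1 / 2 ≤ s → s ≤ 9 / 2 → 4 * ((s - 1 / 2) / 4) + 1 / 2 = s := by
    intro s _ _; ring
  rcases h with h | h | h | h
  · -- left side, s = 4 - b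
    subst h
    refine ⟨(4 - b - 1 / 2) / 4, ⟨by linarith, by linarith⟩, ?_⟩
    unfold pa pb
    rw [mk (4 - b) (by linarith) (by linarith)]
    rw [clamp_of_ge (z := 4 - b) (by linarith), clamp_of_ge (z := 4 - b - 2) (by linarith),
      clamp_of_le (z := 4 - b - 4) (by linarith), clamp_of_ge (z := 4 - b - 1) (by linarith),
      clamp_of_mem (z := 4 - b - 3) (by linarith) (by linarith)]
    constructor <;> ring
  · subst h
    refine ⟨(1 + b - 1 / 2) / 4, ⟨by linarith, by linarith⟩, ?_⟩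
    unfold pa pb
    rw [mk (1 + b) (by linarith) (by linarith)]
    rw [clamp_of_ge (z := 1 + b) (by linarith), clamp_of_le (z := 1 + b - 2) (by linarith),
      clamp_of_le (z := 1 + b - 4) (by linarith),
      clamp_of_mem (z := 1 + b - 1) (by linarith) (by linarith),
      clamp_of_le (z := 1 + b - 3) (by linarith)]
    constructor <;> ring
  · subst h
    rcases le_total (1 / 2) a with h2 | h2
    · refine ⟨(a - 1 / 2) / 4, ⟨by linarith, by linarith⟩, ?_⟩
      unfold pa pb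
      rw [mk a (by linarith) (by linarith)]
      rw [clamp_of_mem (z := a) (by linarith) (by linarith), clamp_of_le (z := a - 2) (by linarith),
        clamp_of_le (z := a - 4) (by linarith), clamp_of_le (z := a - 1) (by linarith),
        clamp_of_le (z := a - 3) (by linarith)]
      constructor <;> ring
    · refine ⟨(4 + a - 1 / 2) / 4, ⟨by linarith, by linarith⟩, ?_⟩
      unfold pa pb
      rw [mk (4 + a) (by linarith) (by linarith)]
      rw [clamp_of_ge (z := 4 + a) (by linarith), clamp_of_ge (z := 4 + a - 2) (by linarith),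
        clamp_of_mem (z := 4 + a - 4) (by linarith) (by linarith),
        clamp_of_ge (z := 4 + a - 1) (by linarith), clamp_of_ge (z := 4 + a - 3) (by linarith)]
      constructor <;> ring
  · subst h
    refine ⟨(3 - a - 1 / 2) / 4, ⟨by linarith, by linarith⟩, ?_⟩
    unfold pa pb
    rw [mk (3 - a) (by linarith) (by linarith)]
    rw [clamp_of_ge (z := 3 - a) (by linarith),
      clamp_of_mem (z := 3 - a - 2) (by linarith) (by linarith),
      clamp_of_le (z := 3 - a - 4) (by linarith), clamp_of_ge (z := 3 - a - 1) (by linarith),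
      clamp_of_le (z := 3 - a - 3) (by linarith)]
    constructor <;> ring

theorem std_val (t : ℝ) (s : ℝ) (hs : 4 * t + 1 / 2 = s) :
    (s = 1 / 2 → pa t = 1 / 2 ∧ pb t = 0) ∧ (s = 1 → pa t = 1 ∧ pb t = 0) ∧
    (s = 2 → pa t = 1 ∧ pb t = 1) ∧ (s = 3 → pa t = 0 ∧ pb t = 1) ∧
    (s = 4 → pa t = 0 ∧ pb t = 0) ∧ (s = 9 / 2 → pa t = 1 / 2 ∧ pb t = 0) := by
  unfold pa pb
  rw [hs]
  refine ⟨?_, ?_, ?_, ?_, ?_, ?_⟩ <;> rintro rfl <;> unfold clamp <;> norm_num

end Pool.Agent.MP_d3ce6f_co
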