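import Mathlib
import Pool.Agent.MP_d3ce6f_co.Top

set_option autoImplicit false

open Set

namespace Pool.Agent.MP_d3ce6f_co

namespace Dat

variable (D : Dat)

theorem vert_low (K j c : ℤ) : D.vert K (2 * j - D.e K + c)
    = (D.X (K + 1) + (j + (c : ℝ) / 2) * (2 : ℝ) ^ (K + 1), ((K + 1 : ℤ) : ℝ)) := by
  unfold vert
  rw [D.hX, zpow_add_one₀ (by norm_num)]
  refine Prod.ext ?_ ?_
  · simp only
    push_cast
    ring
  · simp only
    push_cast
    ring

theorem vert_high (k j c : ℤ) : D.vert k (j + c)
    = (D.X k + (j + (c : ℝ)) * (2 : ℝ) ^ k, (k : ℝ) + 1) := by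
  unfold vert
  push_cast
  rfl

theorem verts_of_tile (K j : ℤ) : {x : ℝ × ℝ | x ∈ D.tile (K + 1) j ∧ 3 ≤ valence D.tiles x}
    = {D.vert K (2 * j - D.e K + 1), D.vert K (2 * j - D.e K + 2), D.vert (K + 1) (j + 1),
        D.vert (K + 1) (j + 0), D.vert K (2 * j - D.e K + 0)} := by
  ext x
  simp only [Set.mem_ofPred_eq, Set.mem_insert_iff, Set.mem_singleton_iff]
  constructor
  · rintro ⟨hx, hv⟩
    obtain ⟨k, m, rfl⟩ := D.exists_vert x hv
    rw [vert_mem] at hx
    rcases hx with ⟨hk, hm⟩ | ⟨hk, hm1, hm2⟩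
    · subst hk
      rcases hm with hm | hm
      · right; right; right; left
        rw [hm, add_zero]
      · right; right; left
        rw [show m = j + 1 by omega]
    · have hk' : k = K := by omega
      subst hk'
      rcases (by omega : m = 2 * j - D.e k + 0 ∨ m = 2 * j - D.e k + 1 ∨ m = 2 * j - D.e k + 2)
        with h | h | h
      · right; right; right; right; rw [h]
      · left; rw [h]
      · right; left; rw [h]
  · have h3 : ∀ k m, 3 ≤ valence D.tiles (D.vert k m) := by
      intro k m
      by_cases h : 2 ∣ m + D.e k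
      · rw [D.valence_vert_even k m h]; norm_num
      · rw [D.valence_vert_odd k m h]
    rintro (rfl | rfl | rfl | rfl | rfl) <;> refine ⟨?_, h3 _ _⟩ <;> rw [vert_mem] <;> omega

/-- the traversal of the boundary of a tile; `c = 0` for the positive direction, `c = 1` for the
negative one -/
noncomputable def curve (k j c : ℤ) (t : ℝ) : ℝ × ℝ :=
  (D.X k + (j + c + (1 - 2 * c) * pa t) * (2 : ℝ) ^ k, k + pb t)

theorem u_curve (k j c : ℤ) (t : ℝ) :
    D.u k (D.curve k j c t).1 = j + c + (1 - 2 * c) * pa t := by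
  unfold u curve
  have : (2 : ℝ) ^ k ≠ 0 := by positivity
  simp only
  field_simp
  ring

theorem curve_continuous (k j c : ℤ) : Continuous (D.curve k j c) := by
  unfold curve
  have := pa_continuous
  have := pb_continuous
  fun_prop

theorem curve_inj (k j c : ℤ) (hc : c = 0 ∨ c = 1) : Set.InjOn (D.curve k j c) (Set.Ico 0 1) := by
  intro s hs t ht h
  have h1 : D.u k (D.curve k j c s).1 = D.u k (D.curve k j c t).1 := by rw [h]
  rw [u_curve, u_curve] at h1
  have h2 : (D.curve k j c s).2 = (D.curve k j c t).2 := by rw [h]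
  simp only [curve] at h2
  apply std_inj hs ht
  · rcases hc with rfl | rfl
    · norm_num at h1; exact h1
    · norm_num at h1; linarith
  · linarith

theorem curve_image (k j c : ℤ) (hc : c = 0 ∨ c = 1) :
    D.curve k j c '' Set.Icc 0 1 = frontier (D.tile k j) := by
  ext p
  rw [mem_frontier_tile]
  constructor
  · rintro ⟨t, ht, rfl⟩
    rw [mem_tile, u_curve]
    obtain ⟨⟨a0, a1⟩, ⟨b0, b1⟩, hh⟩ := std_mem ht
    simp only [curve]
    rcases hc with rfl | rfl
    · norm_num
      refine ⟨⟨⟨a0, a1⟩, b0, b1⟩, ?_⟩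
      rcases hh with h | h | h | h <;> simp [h]
    · norm_num
      refine ⟨⟨⟨by linarith, by linarith⟩, b0, b1⟩, ?_⟩
      rcases hh with h | h | h | h <;> simp [h]
  · rintro ⟨h, hf⟩
    rw [mem_tile] at h
    obtain ⟨⟨a, b⟩, cc, d⟩ := h
    have h2 : (2 : ℝ) ^ k ≠ 0 := by positivity
    rcases hc with rfl | rfl
    · obtain ⟨t, ht, hta, htb⟩ := std_surj (a := D.u k p.1 - j) (b := p.2 - k) (by linarith)
        (by linarith) (by linarith) (by linarith) (by
          rcases hf with h | h | h | h
          · left; linarith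
          · right; left; linarith
          · right; right; left; linarith
          · right; right; right; linarith)
      refine ⟨t, ht, ?_⟩
      unfold curve
      rw [hta, htb]
      refine Prod.ext ?_ ?_
      · unfold u
        simp only
        field_simp
        push_cast
        ring
      · simp only; ring
    · obtain ⟨t, ht, hta, htb⟩ := std_surj (a := j + 1 - D.u k p.1) (b := p.2 - k) (by linarith)
        (by linarith) (by linarith) (by linarith) (by
          rcases hf with h | h | h | h
          · right; left; linarith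
          · left; linarith
          · right; right; left; linarith
          · right; right; right; linarith)
      refine ⟨t, ht, ?_⟩
      unfold curve
      rw [hta, htb]
      refine Prod.ext ?_ ?_
      · unfold u
        simp only
        field_simp
        push_cast
        ring
      · simp only; ring

theorem range_five {α : Type*} (f : Fin 5 → α) : Set.range f = {f 0, f 1, f 2, f 3, f 4} := by
  ext x
  simp only [Set.mem_range, Set.mem_insert_iff, Set.mem_singleton_iff]
  constructor
  · rintro ⟨i, rfl⟩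
    fin_cases i <;> simp
  · rintro (rfl | rfl | rfl | rfl | rfl) <;> exact ⟨_, rfl⟩

theorem perm_five {α : Type*} (a b c d e : α) :
    ({a, b, c, d, e} : Set α) = {a, e, d, c, b} := by
  ext x
  simp only [Set.mem_insert_iff, Set.mem_singleton_iff]
  constructor
  · rintro (rfl | rfl | rfl | rfl | rfl) <;> simp
  · rintro (rfl | rfl | rfl | rfl | rfl) <;> simp

theorem hasValenceType (k j : ℤ) : HasValenceType D.tiles (D.tile k j) ![3, 4, 3, 4, 4] := by
  obtain ⟨K, rfl⟩ : ∃ K, k = K + 1 := ⟨k - 1, by omega⟩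
  have heK := D.he K
  have heK1 := D.he (K + 1)
  have v0 := (std_val 0 (1 / 2) (by norm_num)).1 rfl
  have v1 := (std_val (1 / 8) 1 (by norm_num)).2.1 rfl
  have v2 := (std_val (3 / 8) 2 (by norm_num)).2.2.1 rfl
  have v3 := (std_val (5 / 8) 3 (by norm_num)).2.2.2.1 rfl
  have v4 := (std_val (7 / 8) 4 (by norm_num)).2.2.2.2.1 rfl
  have v5 := (std_val 1 (9 / 2) (by norm_num)).2.2.2.2.2 rfl
  have hmono : StrictMono (![0, 1 / 8, 3 / 8, 5 / 8, 7 / 8] : Fin 5 → ℝ) := by
    intro a b hab
    fin_cases a <;> fin_cases b <;> first | (exfalso; revert hab; decide) | (simp; try norm_num)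
  have hmem : ∀ i, (![0, 1 / 8, 3 / 8, 5 / 8, 7 / 8] : Fin 5 → ℝ) i ∈ Set.Ico (0 : ℝ) 1 := by
    intro i
    fin_cases i <;> norm_num
  by_cases hpar : 2 ∣ j + D.e (K + 1)
  · have c0 : D.curve (K + 1) j 0 0 = D.vert K (2 * j - D.e K + 1) := by
      rw [vert_low]; unfold curve; rw [v0.1, v0.2]; norm_num
    have c1 : D.curve (K + 1) j 0 (1 / 8) = D.vert K (2 * j - D.e K + 2) := by
      rw [vert_low]; unfold curve; rw [v1.1, v1.2]; norm_num
    have c2 : D.curve (K + 1) j 0 (3 / 8) = D.vert (K + 1) (j + 1) := by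
      rw [vert_high]; unfold curve; rw [v2.1, v2.2]; norm_num
    have c3 : D.curve (K + 1) j 0 (5 / 8) = D.vert (K + 1) (j + 0) := by
      rw [vert_high]; unfold curve; rw [v3.1, v3.2]; norm_num
    have c4 : D.curve (K + 1) j 0 (7 / 8) = D.vert K (2 * j - D.e K + 0) := by
      rw [vert_low]; unfold curve; rw [v4.1, v4.2]; norm_num
    have c5 : D.curve (K + 1) j 0 0 = D.curve (K + 1) j 0 1 := by
      unfold curve; rw [v0.1, v0.2, v5.1, v5.2]
    refine ⟨D.curve (K + 1) j 0, ![0, 1 / 8, 3 / 8, 5 / 8, 7 / 8],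
      (D.curve_continuous _ _ _).continuousOn, D.curve_inj _ _ _ (Or.inl rfl), c5,
      D.curve_image _ _ _ (Or.inl rfl), hmono, hmem, ?_, ?_⟩
    · rw [verts_of_tile, range_five]
      simp only [Matrix.cons_val]
      rw [c0, c1, c2, c3, c4]
    · intro i
      fin_cases i
      · simp only [Fin.zero_eta, Matrix.cons_val_zero, c0]
        exact D.valence_vert_odd _ _ (by omega)
      · simp only [Fin.mk_one, Matrix.cons_val_one, Matrix.cons_val_zero, c1]
        exact D.valence_vert_even _ _ (by omega)
      · simp only [Fin.reduceFinMk, Matrix.cons_val, c2]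
        exact D.valence_vert_odd _ _ (by omega)
      · simp only [Fin.reduceFinMk, Matrix.cons_val, c3]
        exact D.valence_vert_even _ _ (by omega)
      · simp only [Fin.reduceFinMk, Matrix.cons_val, c4]
        exact D.valence_vert_even _ _ (by omega)
  · have c0 : D.curve (K + 1) j 1 0 = D.vert K (2 * j - D.e K + 1) := by
      rw [vert_low]; unfold curve; rw [v0.1, v0.2]; norm_num; left; ring
    have c1 : D.curve (K + 1) j 1 (1 / 8) = D.vert K (2 * j - D.e K + 0) := by
      rw [vert_low]; unfold curve; rw [v1.1, v1.2]; norm_num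
    have c2 : D.curve (K + 1) j 1 (3 / 8) = D.vert (K + 1) (j + 0) := by
      rw [vert_high]; unfold curve; rw [v2.1, v2.2]; norm_num
    have c3 : D.curve (K + 1) j 1 (5 / 8) = D.vert (K + 1) (j + 1) := by
      rw [vert_high]; unfold curve; rw [v3.1, v3.2]; norm_num
    have c4 : D.curve (K + 1) j 1 (7 / 8) = D.vert K (2 * j - D.e K + 2) := by
      rw [vert_low]; unfold curve; rw [v4.1, v4.2]; norm_num
    have c5 : D.curve (K + 1) j 1 0 = D.curve (K + 1) j 1 1 := by
      unfold curve; rw [v0.1, v0.2, v5.1, v5.2]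
    refine ⟨D.curve (K + 1) j 1, ![0, 1 / 8, 3 / 8, 5 / 8, 7 / 8],
      (D.curve_continuous _ _ _).continuousOn, D.curve_inj _ _ _ (Or.inr rfl), c5,
      D.curve_image _ _ _ (Or.inr rfl), hmono, hmem, ?_, ?_⟩
    · rw [verts_of_tile, range_five, perm_five]
      simp only [Matrix.cons_val]
      rw [c0, c1, c2, c3, c4]
    · intro i
      fin_cases i
      · simp only [Fin.zero_eta, Matrix.cons_val_zero, c0]
        exact D.valence_vert_odd _ _ (by omega)
      · simp only [Fin.mk_one, Matrix.cons_val_one, Matrix.cons_val_zero, c1]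
        exact D.valence_vert_even _ _ (by omega)
      · simp only [Fin.reduceFinMk, Matrix.cons_val, c2]
        exact D.valence_vert_odd _ _ (by omega)
      · simp only [Fin.reduceFinMk, Matrix.cons_val, c3]
        exact D.valence_vert_even _ _ (by omega)
      · simp only [Fin.reduceFinMk, Matrix.cons_val, c4]
        exact D.valence_vert_even _ _ (by omega)

theorem isHomogeneous : IsHomogeneous34344 D.tiles := by
  refine ⟨D.isTiling, ?_⟩
  intro T hT
  obtain ⟨k, j, rfl⟩ := (D.mem_tiles T).1 hT
  exact D.hasValenceType k j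

end Dat

end Pool.Agent.MP_d3ce6f_co
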