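import Mathlib
import Pool.Agent.MP_d3ce6f_co.Intr
import Pool.Agent.MP_d3ce6f_co.VType

set_option autoImplicit false

open Set

namespace Pool.Agent.MP_d3ce6f_co

/-- the sequence of left/right choices whose pattern of repetitions is `δ` -/
def eseq (δ : ℕ → Bool) : ℕ → ℤ
  | 0 => 0
  | n + 1 => if δ n then eseq δ n else 1 - eseq δ n

theorem eseq_mem (δ : ℕ → Bool) (n : ℕ) : eseq δ n = 0 ∨ eseq δ n = 1 := by
  induction n with
  | zero => left; rfl
  | succ n ih =>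
    unfold eseq
    split_ifs
    · exact ih
    · omega

/-- the binary tiling attached to a sequence -/
noncomputable def ofSeq (δ : ℕ → Bool) : Dat where
  X := fun k => - ∑ i ∈ Finset.range k.toNat, (eseq δ i : ℝ) * (2 : ℝ) ^ i
  e := fun k => if 0 ≤ k then eseq δ k.toNat else 0
  he := by
    intro k
    split_ifs
    · exact eseq_mem δ _
    · left; rfl
  hX := by
    intro k
    by_cases hk : 0 ≤ k
    · obtain ⟨n, rfl⟩ : ∃ n : ℕ, k = n := ⟨k.toNat, by omega⟩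
      rw [if_pos hk]
      have h1 : ((n : ℤ) + 1).toNat = n + 1 := by omega
      rw [h1, Int.toNat_natCast, Finset.sum_range_succ, zpow_natCast]
      ring
    · rw [if_neg hk]
      have h1 : (k + 1).toNat = 0 := by omega
      have h2 : k.toNat = 0 := by omega
      rw [h1, h2]
      simp

theorem ofSeq_e (δ : ℕ → Bool) (n : ℕ) : (ofSeq δ).e n = eseq δ n := by
  simp [ofSeq]

theorem hasSeq_ofSeq (δ : ℕ → Bool) :
    HasSeq (ofSeq δ).tiles ((ofSeq δ).tile 0 0) δ := by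
  refine ⟨fun n => (ofSeq δ).tile n 0, rfl, ?_⟩
  intro n
  have h0 := eseq_mem δ n
  have h1 := eseq_mem δ (n + 1)
  have e0 := ofSeq_e δ n
  have e1 : (ofSeq δ).e ((n : ℤ) + 1) = eseq δ (n + 1) := by
    have := ofSeq_e δ (n + 1)
    push_cast at this
    exact this
  constructor
  · rw [Dat.isParent_iff]
    have : ((0 : ℤ) + (ofSeq δ).e n) / 2 = 0 := by rw [e0]; omega
    rw [this]
    push_cast
    rfl
  · rw [Dat.same_iff, e0, e1]
    have hrec : eseq δ (n + 1) = if δ n then eseq δ n else 1 - eseq δ n := rfl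
    rcases h0 with h0 | h0 <;> cases hd : δ n <;> simp [hd, h0] at hrec <;> rw [h0, hrec] <;> decide

theorem TopEquiv.refl (𝒯 : Set (Set (ℝ × ℝ))) : TopEquiv 𝒯 𝒯 :=
  ⟨Homeomorph.refl _, by simp⟩

theorem TopEquiv.symm {𝒯 𝒯' : Set (Set (ℝ × ℝ))} (h : TopEquiv 𝒯 𝒯') : TopEquiv 𝒯' 𝒯 := by
  obtain ⟨h, rfl⟩ := h
  refine ⟨h.symm, ?_⟩
  rw [Set.image_image]
  have : (fun T : Set (ℝ × ℝ) => h.symm '' (h '' T)) = id := by
    funext T
    rw [Set.image_image]
    simp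
  rw [this, Set.image_id]

theorem TopEquiv.trans {𝒯 𝒯' 𝒯'' : Set (Set (ℝ × ℝ))} (h : TopEquiv 𝒯 𝒯')
    (h' : TopEquiv 𝒯' 𝒯'') : TopEquiv 𝒯 𝒯'' := by
  obtain ⟨h, rfl⟩ := h
  obtain ⟨h', rfl⟩ := h'
  refine ⟨h.trans h', ?_⟩
  rw [Set.image_image]
  congr 1
  funext T
  rw [Set.image_image]
  rfl

instance tilingSetoid : Setoid (ℕ → Bool) where
  r a b := TopEquiv (ofSeq a).tiles (ofSeq b).tiles
  iseqv := ⟨fun _ => TopEquiv.refl _, TopEquiv.symm, TopEquiv.trans⟩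

theorem class_countable (b : ℕ → Bool) :
    {a : ℕ → Bool | TopEquiv (ofSeq a).tiles (ofSeq b).tiles}.Countable := by
  refine ((ofSeq b).countable_seq).mono ?_
  rintro a ⟨h, hh⟩
  have h1 := hasSeq_image (ofSeq a).tiles h.toEquiv _ _ (hasSeq_ofSeq a)
  have h2 : (fun T => h.toEquiv '' T) '' (ofSeq a).tiles = (ofSeq b).tiles := hh
  rw [h2] at h1
  refine ⟨h.toEquiv '' (ofSeq a).tile 0 0, ?_, h1⟩
  rw [← h2]
  exact ⟨_, (ofSeq a).tile_mem 0 0, rfl⟩

theorem card_quotient : Cardinal.mk (Quotient tilingSetoid) = Cardinal.mk (ℕ → Bool) := by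
  apply le_antisymm
  · exact Cardinal.mk_quotient_le
  · have h1 : Cardinal.mk (ℕ → Bool) ≤ Cardinal.mk (Quotient tilingSetoid) * Cardinal.aleph0 := by
      apply Cardinal.mk_le_mk_mul_of_mk_preimage_le (Quotient.mk tilingSetoid)
      intro q
      induction q using Quotient.ind with
      | _ b =>
        have : (Quotient.mk tilingSetoid) ⁻¹' {Quotient.mk tilingSetoid b}
            = {a : ℕ → Bool | TopEquiv (ofSeq a).tiles (ofSeq b).tiles} := by
          ext a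
          simp only [Set.mem_preimage, Set.mem_singleton_iff, Quotient.eq, Set.mem_ofPred_eq]
          rfl
        rw [this]
        exact (Cardinal.le_aleph0_iff_set_countable).2 (class_countable b)
    have h2 : Cardinal.mk (Quotient tilingSetoid) * Cardinal.aleph0
        ≤ max (Cardinal.mk (Quotient tilingSetoid)) Cardinal.aleph0 :=
      Cardinal.mul_le_max_of_aleph0_le_right le_rfl
    have h3 : Cardinal.aleph0 < Cardinal.mk (ℕ → Bool) := by
      simp [Cardinal.aleph0_lt_continuum]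
    rcases le_max_iff.1 (h1.trans h2) with h | h
    · exact h
    · exact absurd h (not_le.2 h3)

theorem exists_family : ∃ 𝒯 : (ℕ → Bool) → Set (Set (ℝ × ℝ)),
    (∀ a, IsHomogeneous34344 (𝒯 a)) ∧ ∀ a b, a ≠ b → ¬ TopEquiv (𝒯 a) (𝒯 b) := by
  obtain ⟨e⟩ := Cardinal.eq.1 card_quotient.symm
  refine ⟨fun a => (ofSeq (e a).out).tiles, fun a => Dat.isHomogeneous _, ?_⟩
  intro a b hab h
  apply hab
  apply e.injective
  rw [← Quotient.out_eq (e a), ← Quotient.out_eq (e b)]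
  exact Quotient.sound h

theorem main : ∃ F : Set (Set (Set (ℝ × ℝ))), Cardinal.mk F = Cardinal.continuum ∧
    (∀ 𝒯 ∈ F, IsHomogeneous34344 𝒯) ∧ ∀ 𝒯 ∈ F, ∀ 𝒯' ∈ F, 𝒯 ≠ 𝒯' → ¬ TopEquiv 𝒯 𝒯' := by
  obtain ⟨𝒯, h1, h2⟩ := exists_family
  have hinj : Function.Injective 𝒯 := by
    intro a b hab
    by_contra hne
    apply h2 a b hne
    rw [hab]
    exact TopEquiv.refl _
  refine ⟨Set.range 𝒯, ?_, ?_, ?_⟩
  · rw [Cardinal.mk_range_eq _ hinj]
    simp
  · rintro _ ⟨a, rfl⟩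
    exact h1 a
  · rintro _ ⟨a, rfl⟩ _ ⟨b, rfl⟩ hne
    exact h2 a b (fun hab => hne (by rw [hab]))

end Pool.Agent.MP_d3ce6f_co
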